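import Mathlib
import Pool.Agent.H964Z.InfMain

set_option autoImplicit false

namespace Pool.Agent.Results.MP_ba7837_an.AFlow

open Pool.Agent.H964Z.Inf

/-- The generic invertible Lebesgue measure preserving transformation of the real line embeds in
a flow. -/
theorem result : {T : AutInf | EmbedsInFlow T} ∈ residual AutInf :=
  Pool.Agent.H964Z.Gen.generic_flow

end Pool.Agent.Results.MP_ba7837_an.AFlow
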