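import Mathlib
import Pool.Agent.H964Z.InfMain

set_option autoImplicit false

namespace Pool.Agent.Results.MP_ba7837_an.BFactorRoot

open Pool.Agent.H964Z.Inf

/-- The generic invertible Lebesgue measure preserving transformation of the real line has a
nontrivial factor, and it has a nontrivial root. -/
theorem result : {T : AutInf | HasFactor T} ∈ residual AutInf ∧
    {T : AutInf | HasRoot T} ∈ residual AutInf :=
  ⟨Pool.Agent.H964Z.Gen.generic_factor,
    Filter.mem_of_superset Pool.Agent.H964Z.Gen.generic_flow
      fun _ h => Pool.Agent.H964Z.Gen.root_of_flow h⟩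

end Pool.Agent.Results.MP_ba7837_an.BFactorRoot
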